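import Pool.Agent.W282.RW.Stm

/-!
# Counting of residue classes in a box (project RW)
-/

namespace Pool.Agent.W356.RW

theorem box_fin (E : Type) [Fintype E] (H : E → ℕ) : {F : E → ℤ | ∀ e, |F e| ≤ H e}.Finite := by
  classical
  apply Set.Finite.subset
    (Fintype.piFinset (fun e : E => Finset.Icc (-(H e : ℤ)) (H e))).finite_toSet
  intro F hF
  simp only [Finset.mem_coe, Fintype.mem_piFinset, Finset.mem_Icc]
  intro e
  exact abs_le.1 (hF e)

theorem box_card (E : Type) [Fintype E] (H : E → ℕ) :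
    {F : E → ℤ | ∀ e, |F e| ≤ H e}.ncard = ∏ e, (2 * H e + 1) := by
  classical
  have h1 : {F : E → ℤ | ∀ e, |F e| ≤ H e} =
      ((Fintype.piFinset (fun e : E => Finset.Icc (-(H e : ℤ)) (H e)) : Finset (E → ℤ)) :
        Set (E → ℤ)) := by
    ext F
    simp only [Set.mem_ofPred_eq, Finset.mem_coe, Fintype.mem_piFinset, Finset.mem_Icc]
    exact forall_congr' (fun e => abs_le)
  rw [h1, Set.ncard_coe_finset, Fintype.card_piFinset]
  apply Finset.prod_congr rfl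
  intro e _
  rw [Int.card_Icc]
  have h2 : ((H e : ℤ) + 1 - -(H e : ℤ)) = ((2 * H e + 1 : ℕ) : ℤ) := by push_cast; ring
  rw [h2, Int.toNat_natCast]

theorem cnt0 (E : Type) [Fintype E] (Q : ℕ) (hQ : 0 < Q) (R : E → ℤ) (H : E → ℕ) :
  ∏ e, ((2 * H e + 1) / Q) ≤
    {F : E → ℤ | (∀ e, |F e| ≤ H e) ∧ ∀ e, (Q : ℤ) ∣ F e - R e}.ncard := by
  classical
  let Φ : ((e : E) → Fin ((2 * H e + 1) / Q)) → (E → ℤ) := fun u e =>
    -(H e : ℤ) + (R e + H e) % Q + Q * ((u e : ℕ) : ℤ)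
  have hQ' : (0 : ℤ) < Q := by exact_mod_cast hQ
  have hinj : Function.Injective Φ := by
    intro u u' h
    funext e
    have h1 := congrFun h e
    simp only [Φ] at h1
    have h2 : (Q : ℤ) * ((u e : ℕ) : ℤ) = Q * ((u' e : ℕ) : ℤ) := by linarith
    have h3 := mul_left_cancel₀ hQ'.ne' h2
    apply Fin.ext
    exact_mod_cast h3
  have hsub : Set.range Φ ⊆
      {F : E → ℤ | (∀ e, |F e| ≤ H e) ∧ ∀ e, (Q : ℤ) ∣ F e - R e} := by
    rintro F ⟨u, rfl⟩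
    constructor
    · intro e
      simp only [Φ]
      have h1 := Int.emod_nonneg (R e + H e) hQ'.ne'
      have h2 := Int.emod_lt_of_pos (R e + H e) hQ'
      have h3 : ((u e : ℕ) : ℤ) + 1 ≤ (((2 * H e + 1) / Q : ℕ) : ℤ) := by exact_mod_cast (u e).2
      have h5 : (Q : ℤ) * (((2 * H e + 1) / Q : ℕ) : ℤ) ≤ 2 * H e + 1 := by
        have : Q * ((2 * H e + 1) / Q) ≤ 2 * H e + 1 := Nat.mul_div_le _ _
        exact_mod_cast this
      have h6 : (Q : ℤ) * (((u e : ℕ) : ℤ) + 1) ≤ Q * (((2 * H e + 1) / Q : ℕ) : ℤ) :=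
        mul_le_mul_of_nonneg_left h3 hQ'.le
      have h7 : (0 : ℤ) ≤ Q * ((u e : ℕ) : ℤ) := by positivity
      rw [abs_le]
      constructor <;> nlinarith
    · intro e
      simp only [Φ]
      have h1 := Int.emod_add_mul_ediv (R e + H e) Q
      refine ⟨((u e : ℕ) : ℤ) - (R e + H e) / Q, ?_⟩
      linear_combination h1
  have hfin : {F : E → ℤ | (∀ e, |F e| ≤ H e) ∧ ∀ e, (Q : ℤ) ∣ F e - R e}.Finite :=
    (box_fin E H).subset (fun F hF => hF.1)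
  calc ∏ e, ((2 * H e + 1) / Q) = Nat.card ((e : E) → Fin ((2 * H e + 1) / Q)) := by
        rw [Nat.card_eq_fintype_card, Fintype.card_pi]
        simp only [Fintype.card_fin]
    _ = (Set.range Φ).ncard := by
        rw [← Set.image_univ, Set.ncard_image_of_injective _ hinj, Set.ncard_univ]
    _ ≤ _ := Set.ncard_le_ncard hsub hfin

theorem cnt2 (E : Type) [Fintype E] (Q : ℕ) (hQ : 0 < Q) (R : E → ℤ) (H : E → ℕ)
    (hH : ∀ e, Q ≤ H e) :
    (1 / (2 * (Q : ℝ))) ^ Fintype.card E * ({F : E → ℤ | ∀ e, |F e| ≤ H e}.ncard : ℝ) ≤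
      ({F : E → ℤ | (∀ e, |F e| ≤ H e) ∧ ∀ e, (Q : ℤ) ∣ F e - R e}.ncard : ℝ) := by
  classical
  have hQR : (0 : ℝ) < Q := by exact_mod_cast hQ
  have h3 : ∀ e, 1 / (2 * (Q : ℝ)) * ((2 * H e + 1 : ℕ) : ℝ) ≤ (((2 * H e + 1) / Q : ℕ) : ℝ) := by
    intro e
    have h4 : ((2 * H e + 1 : ℕ) : ℝ) / Q < (((2 * H e + 1) / Q : ℕ) : ℝ) + 1 := by
      have := Nat.lt_floor_add_one (((2 * H e + 1 : ℕ) : ℝ) / Q)
      rwa [Nat.floor_div_eq_div] at this
    have h5 : (1 : ℝ) ≤ ((2 * H e + 1 : ℕ) : ℝ) / Q / 2 := by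
      rw [le_div_iff₀ (by norm_num), le_div_iff₀ hQR]
      push_cast
      have : (Q : ℝ) ≤ H e := by exact_mod_cast hH e
      linarith
    have h6 : 1 / (2 * (Q : ℝ)) * ((2 * H e + 1 : ℕ) : ℝ) = ((2 * H e + 1 : ℕ) : ℝ) / Q / 2 := by
      field_simp
    rw [h6]
    linarith
  have h1 := cnt0 E Q hQ R H
  rw [box_card]
  calc (1 / (2 * (Q : ℝ))) ^ Fintype.card E * ((∏ e, (2 * H e + 1) : ℕ) : ℝ)
      = ∏ e, (1 / (2 * (Q : ℝ)) * ((2 * H e + 1 : ℕ) : ℝ)) := by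
        rw [Finset.prod_mul_distrib, Finset.prod_const, Finset.card_univ, Nat.cast_prod]
    _ ≤ ∏ e, (((2 * H e + 1) / Q : ℕ) : ℝ) :=
        Finset.prod_le_prod (fun e _ => by positivity) (fun e _ => h3 e)
    _ = ((∏ e, ((2 * H e + 1) / Q) : ℕ) : ℝ) := by rw [Nat.cast_prod]
    _ ≤ _ := by exact_mod_cast h1

theorem cnt : Pool.Agent.W282.RW.S_CNT := fun E _ Q hQ R H => cnt0 E Q hQ R H

end Pool.Agent.W356.RW
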